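import Mathlib
set_option autoImplicit false

/-! Phase T of MP_8e9dbb_gt: combinatorics of closed geodesics, abstract form. -/

namespace Pool.MP8e.TComb

open Real Finset

/-- constants of phase T: `γ ∈ (0, π/3]`, `h` = distance of the floor from the virtual apex,
`Ra` outer radius of the corner of the profile, `ρ0` inner radius of that corner. -/
structure Par where
  γ : ℝ
  h : ℝ
  Ra : ℝ
  ρ0 : ℝ
  γ_pos : 0 < γ
  γ_le : γ ≤ π / 3
  h_pos : 0 < h
  Ra_pos : 0 < Ra
  ρ0_pos : 0 < ρ0
  I3 : 5 * γ ≤ π → γ / π * h < 2 * ρ0 * cos (γ / 2) ^ 2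

namespace Par
variable (P : Par)

noncomputable def κ : ℝ := P.γ / π
noncomputable def q : ℝ := 1 - 3 * P.κ
/-- length of the floor -/
noncomputable def c : ℝ := 2 * P.h * tan (P.γ / 2)

end Par

/-- An excursion with `J > 0` (`J` = momentum / `κ`). `k` = number of legs crossed; `(a, W)` angle and
position at the departure, `(a', W')` at the arrival, `l` the length. Corner, flat with `k ≥ 2`, N-visit. -/
def ExcPos (P : Par) (k : ℤ) (a a' W W' J l : ℝ) : Prop := 0 < J ∧
  ((k = 1 ∧ a + a' = P.γ ∧ (P.c + W' - W) * cos (P.γ / 2) ≤ l) ∨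
   (2 ≤ k ∧ a + a' = k * P.γ ∧ P.c * cos (P.γ / 2) ≤ l ∧ (a = π / 2 → a' = π / 2 → 2 * P.h ≤ l)) ∨
   (0 ≤ k ∧ P.c * cos (P.γ / 2) ≤ l ∧ ∃ D, a + a' = k * P.γ + D ∧
      2 * P.q * arccos (P.κ * J / P.ρ0) ≤ D ∧ D ≤ 2 * P.q * arccos (P.κ * J / P.Ra) ∧ 0 < D))

/-- An excursion. -/
def Exc (P : Par) (k : ℤ) (a a' W W' J l : ℝ) : Prop :=
  ExcPos P k a a' W W' J l ∨ ExcPos P (-k) (π - a) (π - a') (-W) (-W') (-J) l

/-- a closed chain of excursions, with period `n` -/
structure Chain (P : Par) (n : ℕ) (k : ℤ → ℤ) (a a' W W' J l : ℤ → ℝ) : Prop where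
  n_pos : 0 < n
  pk : ∀ i, k (i + n) = k i
  pa : ∀ i, a (i + n) = a i
  pa' : ∀ i, a' (i + n) = a' i
  pW : ∀ i, W (i + n) = W i
  pW' : ∀ i, W' (i + n) = W' i
  pJ : ∀ i, J (i + n) = J i
  pl : ∀ i, l (i + n) = l i
  ha : ∀ i, 0 < a i ∧ a i < π
  ha' : ∀ i, 0 < a' i ∧ a' i < π
  hW : ∀ i, |W i| ≤ P.c / 2
  hW' : ∀ i, |W' i| ≤ P.c / 2
  hl : ∀ i, 0 ≤ l i
  dep : ∀ i, J i = P.h * cos (a i) + W i * sin (a i)
  arr : ∀ i, J i = P.h * cos (a' i) - W' i * sin (a' i)
  crossW : ∀ i, W (i + 1) = -W' i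
  crossa : ∀ i, a (i + 1) = π - a' i
  exc : ∀ i, Exc P (k i) (a i) (a' i) (W i) (W' i) (J i) (l i)
  parity : Even (∑ i ∈ range n, (k i + 1))

section sums

theorem sum_shift_one {M : Type} [AddCommGroup M] (f : ℤ → M) (n : ℕ) (h : ∀ i, f (i + n) = f i) :
    ∑ i ∈ range n, f (i + 1) = ∑ i ∈ range n, f i := by
  have h1 := Finset.sum_range_succ (fun i : ℕ => f i) n
  have h2 := Finset.sum_range_succ' (fun i : ℕ => f i) n
  have h3 := h 0
  rw [zero_add] at h3
  simp only [Nat.cast_add, Nat.cast_one, Nat.cast_zero] at h1 h2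
  rw [h1, h3] at h2
  exact (add_right_cancel h2).symm

theorem sum_shift {M : Type} [AddCommGroup M] (f : ℤ → M) (n : ℕ) (h : ∀ i, f (i + n) = f i) (m : ℕ) :
    ∑ i ∈ range n, f (i + m) = ∑ i ∈ range n, f i := by
  induction m with
  | zero => simp
  | succ m ih =>
    rw [← ih]
    have := sum_shift_one (fun i => f (i + m)) n (fun i => by
      rw [← h (i + m)]
      congr 1
      ring)
    rw [← this]
    refine Finset.sum_congr rfl fun i _ => ?_
    congr 1
    push_cast
    ring

end sums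

theorem Chain.shift {P : Par} {n : ℕ} {k : ℤ → ℤ} {a a' W W' J l : ℤ → ℝ}
    (C : Chain P n k a a' W W' J l) (m : ℕ) :
    Chain P n (fun i => k (i + m)) (fun i => a (i + m)) (fun i => a' (i + m)) (fun i => W (i + m))
      (fun i => W' (i + m)) (fun i => J (i + m)) (fun i => l (i + m)) := by
  have e : ∀ i : ℤ, i + n + m = i + m + n := fun i => by ring
  have e1 : ∀ i : ℤ, i + 1 + m = i + m + 1 := fun i => by ring
  refine ⟨C.n_pos, fun i => ?_, fun i => ?_, fun i => ?_, fun i => ?_, fun i => ?_, fun i => ?_,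
    fun i => ?_, fun i => C.ha _, fun i => C.ha' _, fun i => C.hW _, fun i => C.hW' _,
    fun i => C.hl _, fun i => C.dep _, fun i => C.arr _, fun i => ?_, fun i => ?_,
    fun i => C.exc _, ?_⟩
  · simp only [e]; exact C.pk _
  · simp only [e]; exact C.pa _
  · simp only [e]; exact C.pa' _
  · simp only [e]; exact C.pW _
  · simp only [e]; exact C.pW' _
  · simp only [e]; exact C.pJ _
  · simp only [e]; exact C.pl _
  · simp only [e1]; exact C.crossW _
  · simp only [e1]; exact C.crossa _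
  · have := sum_shift (fun i => k i + 1) n (fun i => by rw [C.pk]) m
    rw [this]
    exact C.parity

/-- corner excursions -/
def CornP (P : Par) (k : ℤ) (a a' W W' l : ℝ) : Prop :=
  k = 1 ∧ a + a' = P.γ ∧ (P.c + W' - W) * cos (P.γ / 2) ≤ l

def CornN (P : Par) (k : ℤ) (a a' W W' l : ℝ) : Prop :=
  k = -1 ∧ (π - a) + (π - a') = P.γ ∧ (P.c + W - W') * cos (P.γ / 2) ≤ l

variable {P : Par}

theorem c_pos : 0 < P.c := by
  unfold Par.c
  have h1 := P.γ_pos
  have h2 := P.γ_le
  have h3 : 0 < tan (P.γ / 2) := tan_pos_of_pos_of_lt_pi_div_two (by linarith) (by linarith [pi_pos])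
  have := P.h_pos
  positivity

theorem cos_pos' : 0 < cos (P.γ / 2) := by
  have h1 := P.γ_pos
  have h2 := P.γ_le
  exact cos_pos_of_mem_Ioo ⟨by linarith [pi_pos], by linarith [pi_pos]⟩

/-- `2 c cos(γ/2) = 4 h sin(γ/2)`. -/
theorem c_cos : P.c * cos (P.γ / 2) = 2 * P.h * sin (P.γ / 2) := by
  unfold Par.c
  rw [tan_eq_sin_div_cos]
  have := (cos_pos' (P := P)).ne'
  field_simp

theorem corn_or_big {k : ℤ} {a a' W W' J l : ℝ} (h : Exc P k a a' W W' J l) :
    CornP P k a a' W W' l ∨ CornN P k a a' W W' l ∨ P.c * cos (P.γ / 2) ≤ l := by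
  have hc := c_pos (P := P)
  have hcc := cos_pos' (P := P)
  have h1 : P.c * cos (P.γ / 2) ≤ P.c := by
    have := cos_le_one (P.γ / 2)
    nlinarith
  rcases h with ⟨_, h⟩ | ⟨_, h⟩
  · rcases h with h | h | h
    · exact Or.inl h
    · exact Or.inr (Or.inr h.2.2.1)
    · exact Or.inr (Or.inr h.2.1)
  · rcases h with h | h | h
    · refine Or.inr (Or.inl ⟨by omega, h.2.1, ?_⟩)
      have := h.2.2
      have e : P.c + -W' - -W = P.c + W - W' := by ring
      rwa [e] at this
    · exact Or.inr (Or.inr h.2.2.1)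
    · exact Or.inr (Or.inr h.2.1)

/-- two consecutive corners have opposite signs -/
theorem alt {k1 k2 : ℤ} {a1 a1' W1 W1' l1 a2 a2' W2 W2' l2 : ℝ}
    (h1 : CornP P k1 a1 a1' W1 W1' l1 ∨ CornN P k1 a1 a1' W1 W1' l1)
    (h2 : CornP P k2 a2 a2' W2 W2' l2 ∨ CornN P k2 a2 a2' W2 W2' l2)
    (ha1 : 0 < a1 ∧ a1 < π) (ha2' : 0 < a2' ∧ a2' < π) (hx : a2 = π - a1') :
    (CornP P k1 a1 a1' W1 W1' l1 ∧ CornN P k2 a2 a2' W2 W2' l2) ∨
    (CornN P k1 a1 a1' W1 W1' l1 ∧ CornP P k2 a2 a2' W2 W2' l2) := by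
  have hg := P.γ_le
  have hp := pi_pos
  rcases h1 with h1 | h1 <;> rcases h2 with h2 | h2
  · exfalso
    have := h1.2.1
    have := h2.2.1
    linarith [ha1.1, ha2'.1]
  · exact Or.inl ⟨h1, h2⟩
  · exact Or.inr ⟨h1, h2⟩
  · exfalso
    have := h1.2.1
    have := h2.2.1
    linarith [ha1.2, ha2'.2]

theorem corn_len {k : ℤ} {a a' W W' l : ℝ}
    (h : CornP P k a a' W W' l ∨ CornN P k a a' W W' l) :
    (P.c + k * (W' - W)) * cos (P.γ / 2) ≤ l := by
  rcases h with ⟨hk, _, h⟩ | ⟨hk, _, h⟩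
  · rw [hk]
    push_cast
    have e : P.c + 1 * (W' - W) = P.c + W' - W := by ring
    rw [e]
    exact h
  · rw [hk]
    push_cast
    have e : P.c + -1 * (W' - W) = P.c + W - W' := by ring
    rw [e]
    exact h

theorem corn_k {k : ℤ} {a a' W W' l : ℝ}
    (h : CornP P k a a' W W' l ∨ CornN P k a a' W W' l) : k = 1 ∨ k = -1 := by
  rcases h with h | h
  · exact Or.inl h.1
  · exact Or.inr h.1

section chain

variable {n : ℕ} {k : ℤ → ℤ} {a a' W W' J l : ℤ → ℝ}

/-- corner at index `i` -/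
def Chain.Cor (_ : Chain P n k a a' W W' J l) (i : ℤ) : Prop :=
  CornP P (k i) (a i) (a' i) (W i) (W' i) (l i) ∨ CornN P (k i) (a i) (a' i) (W i) (W' i) (l i)

theorem Chain.kk (C : Chain P n k a a' W W' J l) {i : ℤ} (h1 : C.Cor i) (h2 : C.Cor (i + 1)) :
    k (i + 1) = -k i := by
  rcases alt h1 h2 (C.ha i) (C.ha' (i + 1)) (C.crossa i) with h | h
  · rw [h.1.1, h.2.1]
  · rw [h.1.1, h.2.1]
    rfl

theorem Chain.pair (C : Chain P n k a a' W W' J l) {i : ℤ} (h1 : C.Cor i) (h2 : C.Cor (i + 1)) :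
    (P.c / 2 + k i * W' i) + (P.c / 2 - k (i + 1) * W (i + 1)) = P.c := by
  rw [C.kk h1 h2, C.crossW]
  push_cast
  ring

theorem Chain.all_corners (C : Chain P n k a a' W W' J l) (h : ∀ i, C.Cor i) :
    2 * (P.c * cos (P.γ / 2)) ≤ ∑ i ∈ range n, l i := by
  have hn : 2 ≤ n := by
    by_contra hlt
    have hn1 : n = 1 := by have := C.n_pos; omega
    have h1 := C.kk (h 0) (h (0 + 1))
    have h2 := C.pk 0
    rw [hn1] at h2
    simp only [Nat.cast_one] at h2
    rw [h2] at h1
    rcases corn_k (h 0) with h3 | h3 <;> omega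
  have hcc := cos_pos' (P := P)
  have hc := c_pos (P := P)
  have e1 : ∑ i ∈ range n, (P.c + k i * (W' i - W i)) = n * P.c := by
    have e2 := sum_shift_one (fun i : ℤ => P.c / 2 - k i * W i) n (fun i => by rw [C.pk, C.pW])
    have e3 : ∑ i ∈ range n, (P.c + k i * (W' i - W i)) =
        ∑ i ∈ range n, (P.c / 2 + k i * W' i) + ∑ i ∈ range n, (P.c / 2 - k i * W i) := by
      rw [← Finset.sum_add_distrib]
      exact Finset.sum_congr rfl fun i _ => by ring
    rw [e3, ← e2, ← Finset.sum_add_distrib]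
    have e4 : ∀ i ∈ range n, (P.c / 2 + k i * W' i + (P.c / 2 - k ((i : ℤ) + 1) * W ((i : ℤ) + 1))) =
        P.c := fun i _ => C.pair (h i) (h (i + 1))
    rw [Finset.sum_congr rfl e4]
    simp
  calc 2 * (P.c * cos (P.γ / 2)) ≤ n * P.c * cos (P.γ / 2) := by
        have : (2 : ℝ) ≤ n := by exact_mod_cast hn
        have := mul_le_mul_of_nonneg_right this (mul_pos hc hcc).le
        linarith
    _ = ∑ i ∈ range n, (P.c + k i * (W' i - W i)) * cos (P.γ / 2) := by
        rw [← e1, Finset.sum_mul]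
    _ ≤ ∑ i ∈ range n, l i := Finset.sum_le_sum fun i _ => corn_len (h i)

theorem Chain.big (C : Chain P n k a a' W W' J l) {i : ℤ} (h : ¬ C.Cor i) :
    P.c * cos (P.γ / 2) ≤ l i := by
  rcases corn_or_big (C.exc i) with h1 | h1 | h1
  · exact absurd (Or.inl h1) h
  · exact absurd (Or.inr h1) h
  · exact h1

theorem Chain.jump (C : Chain P n k a a' W W' J l) (i : ℤ) :
    J (i + 1) = J i - 2 * P.h * cos (a' i) := by
  rw [C.dep (i + 1), C.crossa, C.crossW, C.arr i, cos_pi_sub, sin_pi_sub]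
  ring

theorem Chain.sum_le (C : Chain P n k a a' W W' J l) {m : ℕ} (hm : m ≤ n) :
    ∑ i ∈ range m, l i ≤ ∑ i ∈ range n, l i :=
  Finset.sum_le_sum_of_subset_of_nonneg (Finset.range_mono hm) fun _ _ _ => C.hl _

/-- a single excursion, perpendicular to the floor -/
theorem single_pos {k : ℤ} {W W' J l : ℝ} (h : ExcPos P k (π / 2) (π / 2) W W' J l) (hJ : J = W)
    (hW : |W| ≤ P.c / 2) (hk : Odd k) : 2 * (P.c * cos (P.γ / 2)) ≤ l := by
  have hg0 := P.γ_pos
  have hg := P.γ_le
  have hp := pi_pos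
  have hh := P.h_pos
  obtain ⟨hJ0, h⟩ := h
  rcases h with h | h | h
  · exfalso
    have := h.2.1
    linarith
  · have h1 := h.2.2.2 rfl rfl
    refine le_trans ?_ h1
    rw [c_cos]
    have h2 : sin (P.γ / 2) ≤ sin (π / 6) :=
      sin_le_sin_of_le_of_le_pi_div_two (by linarith) (by linarith) (by linarith)
    rw [sin_pi_div_six] at h2
    nlinarith
  · exfalso
    obtain ⟨hk0, _, D, hD, hD1, hD2, hD3⟩ := h
    have hκ : 0 < P.κ := by unfold Par.κ; positivity
    have hκγ : P.κ * π = P.γ := by unfold Par.κ; field_simp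
    have hq : P.q = 1 - 3 * P.κ := rfl
    have hq0 : 0 < P.q := by
      by_contra hle
      have hle' : P.q ≤ 0 := by linarith
      have h1 : 0 ≤ arccos (P.κ * J / P.Ra) := arccos_nonneg _
      have := mul_nonpos_of_nonpos_of_nonneg hle' h1
      linarith
    have hlt : arccos (P.κ * J / P.Ra) < π / 2 := by
      rw [arccos_lt_pi_div_two]
      have := P.Ra_pos
      positivity
    have h1 : D < P.q * π := by
      have := mul_lt_mul_of_pos_left hlt (show 0 < 2 * P.q by linarith)
      linarith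
    have h2 : 3 * P.γ < k * P.γ := by
      have : P.q * π = π - 3 * P.γ := by rw [hq, sub_mul, mul_assoc, hκγ, one_mul]
      linarith
    have h3 : (3 : ℝ) < k := lt_of_mul_lt_mul_right h2 hg0.le
    have h4 : (3 : ℤ) < k := by exact_mod_cast h3
    have h5 : (5 : ℤ) ≤ k := by
      rcases hk with ⟨r, hr⟩
      omega
    have h6 : (5 : ℝ) ≤ k := by exact_mod_cast h5
    have h7 : 5 * P.γ ≤ k * P.γ := mul_le_mul_of_nonneg_right h6 hg0.le
    have h8 : D ≤ π - 5 * P.γ := by linarith
    have h9 : 5 * P.γ ≤ π := by linarith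
    have hI := P.I3 h9
    -- arccos bound
    set x := P.κ * J / P.ρ0 with hx
    have h10 : P.q * (π / 2 - arcsin x) * 2 ≤ π - 5 * P.γ := by
      have : arccos x = π / 2 - arcsin x := rfl
      rw [← this]
      linarith
    have h11 : P.γ ≤ P.q * arcsin x := by
      have : P.q * π = π - 3 * P.γ := by rw [hq, sub_mul, mul_assoc, hκγ, one_mul]
      nlinarith
    have h12 : P.q ≤ 1 := by rw [hq]; linarith
    have h13 : 0 ≤ arcsin x := by
      apply arcsin_nonneg.2
      rw [hx]
      have := P.ρ0_pos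
      positivity
    have h14 : P.γ ≤ arcsin x := by
      have := mul_le_mul_of_nonneg_right h12 h13
      linarith
    have h15 : sin P.γ ≤ x := by
      by_contra hlt
      have hlt' : x < sin P.γ := by linarith
      have h16 : arcsin x < P.γ := by
        have h17 : -1 < x := by
          have : 0 < x := by
            rw [hx]
            have := P.ρ0_pos
            positivity
          linarith
        have h18 : sin P.γ ≤ 1 := sin_le_one _
        have h19 : arcsin x < arcsin (sin P.γ) :=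
          strictMonoOn_arcsin ⟨h17.le, by linarith⟩ ⟨by linarith, h18⟩ hlt'
        rwa [arcsin_sin (by linarith) (by linarith)] at h19
      linarith
    -- J ≤ c/2
    have h20 : J ≤ P.c / 2 := by
      rw [hJ]
      exact (le_abs_self W).trans hW
    have h21 : P.κ * J ≤ P.κ * (P.c / 2) := mul_le_mul_of_nonneg_left h20 hκ.le
    have h22 : sin P.γ * P.ρ0 ≤ P.κ * J := by
      rw [hx, le_div_iff₀ P.ρ0_pos] at h15
      exact h15
    have h23 : sin P.γ = 2 * sin (P.γ / 2) * cos (P.γ / 2) := by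
      rw [← sin_two_mul]
      congr 1
      ring
    have h24 : P.κ * (P.c / 2) * cos (P.γ / 2) = P.κ * P.h * sin (P.γ / 2) := by
      have := c_cos (P := P)
      linear_combination (P.κ / 2) * this
    have hs : 0 < sin (P.γ / 2) := sin_pos_of_pos_of_lt_pi (by linarith) (by linarith)
    have hcc := cos_pos' (P := P)
    have h25 : sin P.γ * P.ρ0 * cos (P.γ / 2) ≤ P.κ * P.h * sin (P.γ / 2) := by
      rw [← h24]
      exact mul_le_mul_of_nonneg_right (h22.trans h21) hcc.le
    rw [h23] at h25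
    have h26 : (2 * P.ρ0 * cos (P.γ / 2) ^ 2) * sin (P.γ / 2) ≤ (P.κ * P.h) * sin (P.γ / 2) := by
      nlinarith
    have h27 := le_of_mul_le_mul_right h26 hs
    have h28 : P.γ / π * P.h = P.κ * P.h := rfl
    linarith

theorem Chain.single (C : Chain P 1 k a a' W W' J l) :
    2 * (P.c * cos (P.γ / 2)) ≤ l 0 := by
  have hp := pi_pos
  have p1 := C.pa 0
  have p2 := C.pJ 0
  have p3 := C.pW 0
  simp only [Nat.cast_one] at p1 p2 p3
  have hj := C.jump 0
  rw [p2] at hj
  have hc0 : cos (a' 0) = 0 := by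
    have := P.h_pos
    have h1 : P.h * cos (a' 0) = 0 := by linarith
    rcases mul_eq_zero.1 h1 with h | h
    · exact absurd h this.ne'
    · exact h
  have ha' : a' 0 = π / 2 := by
    have h1 := C.ha' 0
    apply injOn_cos ⟨h1.1.le, h1.2.le⟩ ⟨by linarith, by linarith⟩
    rw [hc0, cos_pi_div_two]
  have ha : a 0 = π / 2 := by
    have := C.crossa 0
    rw [p1, ha'] at this
    linarith
  have hJ : J 0 = W 0 := by
    rw [C.dep 0, ha, cos_pi_div_two, sin_pi_div_two]
    ring
  have hpar := C.parity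
  simp only [Finset.sum_range_one, Nat.cast_zero] at hpar
  have hodd : Odd (k 0) := by
    rcases hpar with ⟨r, hr⟩
    exact ⟨r - 1, by omega⟩
  rcases C.exc 0 with h | h
  · rw [ha, ha'] at h
    exact single_pos h hJ (C.hW 0) hodd
  · rw [ha, ha'] at h
    have e : π - π / 2 = π / 2 := by ring
    rw [e] at h
    refine single_pos h (by rw [hJ]) (by rw [abs_neg]; exact C.hW 0) ?_
    rcases hodd with ⟨r, hr⟩
    exact ⟨-r - 1, by omega⟩

theorem dbl_pos {k : ℤ} {a a' W W' J l : ℝ} (h : ExcPos P k a a' W W' J l) (ha : a = P.γ / 2)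
    (ha' : a' = P.γ / 2) (hk : Odd k) (hnc : k ≠ 1) : False := by
  have hg0 := P.γ_pos
  obtain ⟨hJ0, h⟩ := h
  rcases h with h | h | h
  · exact hnc h.1
  · have h1 := h.2.1
    rw [ha, ha'] at h1
    have h2 : (2 : ℝ) ≤ k := by exact_mod_cast h.1
    nlinarith
  · obtain ⟨hk0, _, D, hD, hD1, hD2, hD3⟩ := h
    rw [ha, ha'] at hD
    have h3 : (k : ℝ) * P.γ < 1 * P.γ := by linarith
    have h4 : (k : ℝ) < 1 := lt_of_mul_lt_mul_right h3 hg0.le
    have h5 : k < 1 := by exact_mod_cast h4
    rcases hk with ⟨r, hr⟩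
    omega

theorem dbl_wrong {a W J : ℝ} (hJ : 0 < J) (ha : a = π - P.γ / 2)
    (hd : J = P.h * cos a + W * sin a) (hW : |W| ≤ P.c / 2) : False := by
  have hg0 := P.γ_pos
  have hg := P.γ_le
  have hp := pi_pos
  have hh := P.h_pos
  rw [ha, cos_pi_sub, sin_pi_sub] at hd
  have hs : 0 < sin (P.γ / 2) := sin_pos_of_pos_of_lt_pi (by linarith) (by linarith)
  have hcc := cos_pos' (P := P)
  have h1 : W ≤ P.c / 2 := (le_abs_self W).trans hW
  have h2 : W * sin (P.γ / 2) ≤ P.c / 2 * sin (P.γ / 2) := mul_le_mul_of_nonneg_right h1 hs.le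
  have h3 : sin (P.γ / 2) < cos (P.γ / 2) := by
    rw [← sin_pi_div_two_sub]
    exact sin_lt_sin_of_lt_of_le_pi_div_two (by linarith) (by linarith) (by linarith)
  have h4 : P.c * cos (P.γ / 2) = 2 * P.h * sin (P.γ / 2) := c_cos
  have h5 : P.h * sin (P.γ / 2) * sin (P.γ / 2) < P.h * cos (P.γ / 2) * cos (P.γ / 2) := by
    have h6 : sin (P.γ / 2) * sin (P.γ / 2) < cos (P.γ / 2) * cos (P.γ / 2) :=
      mul_self_lt_mul_self hs.le h3
    nlinarith
  have h7 : 0 < (P.h * -cos (P.γ / 2) + P.c / 2 * sin (P.γ / 2)) * cos (P.γ / 2) := by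
    apply mul_pos _ hcc
    linarith
  have h8 : (P.h * -cos (P.γ / 2) + P.c / 2 * sin (P.γ / 2)) * cos (P.γ / 2) =
      P.h * sin (P.γ / 2) * sin (P.γ / 2) - P.h * cos (P.γ / 2) * cos (P.γ / 2) := by
    linear_combination (sin (P.γ / 2) / 2) * h4
  linarith

theorem Chain.double (C : Chain P 2 k a a' W W' J l) (h0 : ¬ C.Cor 0) (h1 : C.Cor 1) : False := by
  have hp := pi_pos
  have hh := P.h_pos
  have p1 := C.pa 0
  have p2 := C.pJ 0
  have hj0 := C.jump 0
  have hj1 := C.jump 1
  have hx0 := C.crossa 0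
  have hx1 := C.crossa 1
  simp only [Nat.cast_ofNat, zero_add] at p1 p2 hj0 hx0
  have e2 : (1 : ℤ) + 1 = 2 := rfl
  rw [e2] at hj1 hx1
  rw [p2, hj0] at hj1
  have hsum : cos (a' 0) + cos (a' 1) = 0 := by
    have h1 : P.h * (cos (a' 0) + cos (a' 1)) = 0 := by linarith
    rcases mul_eq_zero.1 h1 with h | h
    · exact absurd h hh.ne'
    · exact h
  have hc1 : cos (a' 1) = cos (a 1) := by
    rw [hx0, cos_pi_sub]
    linarith
  have he : a' 1 = a 1 := by
    have hA := C.ha 1
    have hA' := C.ha' 1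
    exact injOn_cos ⟨hA'.1.le, hA'.2.le⟩ ⟨hA.1.le, hA.2.le⟩ hc1
  rw [p1] at hx1
  have hpar := C.parity
  rw [Finset.sum_range_succ, Finset.sum_range_one] at hpar
  simp only [Nat.cast_zero, Nat.cast_one] at hpar
  have hodd : Odd (k 0) := by
    rcases hpar with ⟨r, hr⟩
    rcases corn_k h1 with h | h
    · exact ⟨r - 2, by omega⟩
    · exact ⟨r - 1, by omega⟩
  have hodd' : Odd (-k 0) := hodd.neg
  rcases h1 with h1 | h1
  · -- corner with k = 1, the big one has a = a' = π - γ/2
    have ha1 : a 1 = P.γ / 2 := by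
      have := h1.2.1
      rw [he] at this
      linarith
    have ha0' : a' 0 = π - P.γ / 2 := by linarith
    have ha0 : a 0 = π - P.γ / 2 := by rw [hx1, he, ha1]
    rcases C.exc 0 with h | h
    · exact dbl_wrong h.1 ha0 (C.dep 0) (C.hW 0)
    · refine dbl_pos h (by rw [ha0]; ring) (by rw [ha0']; ring) hodd' ?_
      intro hk
      apply h0
      refine Or.inr ⟨by omega, ?_, ?_⟩
      · rw [ha0, ha0']; ring
      · rcases h.2 with h2 | h2 | h2
        · have := h2.2.2
          have e : P.c + -W' 0 - -W 0 = P.c + W 0 - W' 0 := by ring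
          rwa [e] at this
        · exfalso
          have := h2.1
          omega
        · exfalso
          obtain ⟨_, _, D, hD, _, _, hD3⟩ := h2
          rw [ha0, ha0', hk] at hD
          push_cast at hD
          linarith
  · have ha1 : a 1 = π - P.γ / 2 := by
      have := h1.2.1
      rw [he] at this
      linarith
    have ha0' : a' 0 = P.γ / 2 := by linarith
    have ha0 : a 0 = P.γ / 2 := by rw [hx1, he, ha1]; ring
    rcases C.exc 0 with h | h
    · refine dbl_pos h ha0 ha0' hodd ?_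
      intro hk
      apply h0
      refine Or.inl ⟨hk, ?_, ?_⟩
      · rw [ha0, ha0']; ring
      · rcases h.2 with h2 | h2 | h2
        · exact h2.2.2
        · exfalso
          have := h2.1
          omega
        · exfalso
          obtain ⟨_, _, D, hD, _, _, hD3⟩ := h2
          rw [ha0, ha0', hk] at hD
          push_cast at hD
          linarith
    · refine dbl_wrong (a := π - a 0) (W := -W 0) h.1 (by rw [ha0]) ?_
        (by rw [abs_neg]; exact C.hW 0)
      rw [cos_pi_sub, sin_pi_sub, C.dep 0]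
      ring

/-- the first excursion is no corner -/
theorem Chain.main0 (C : Chain P n k a a' W W' J l) (h0 : ¬ C.Cor 0) :
    2 * (P.c * cos (P.γ / 2)) ≤ ∑ i ∈ range n, l i := by
  have hb0 := C.big h0
  have hcc := cos_pos' (P := P)
  have hc := c_pos (P := P)
  have hn := C.n_pos
  rcases Nat.lt_or_ge n 2 with h2 | h2
  · have hn1 : n = 1 := by omega
    subst hn1
    rw [Finset.sum_range_one]
    exact C.single
  · by_cases h1 : C.Cor 1
    · rcases Nat.lt_or_ge n 3 with h3 | h3
      · have hn2 : n = 2 := by omega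
        subst hn2
        exact (C.double h0 h1).elim
      · have hs := C.sum_le h3
        rw [Finset.sum_range_succ, Finset.sum_range_succ, Finset.sum_range_one] at hs
        simp only [Nat.cast_zero, Nat.cast_one, Nat.cast_ofNat] at hs
        by_cases h2' : C.Cor 2
        · have e : (1 : ℤ) + 1 = 2 := rfl
          have hp := C.pair h1 (show C.Cor (1 + 1) from h2')
          rw [e] at hp
          have hl1 := corn_len h1
          have hl2 := corn_len h2'
          have hW1 := abs_le.1 (C.hW 1)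
          have hW2' := abs_le.1 (C.hW' 2)
          have u1 : 0 ≤ P.c / 2 - k 1 * W 1 := by
            rcases corn_k h1 with h | h <;> rw [h] <;> push_cast <;> linarith
          have u2 : 0 ≤ P.c / 2 + k 2 * W' 2 := by
            rcases corn_k h2' with h | h <;> rw [h] <;> push_cast <;> linarith
          have hsum : P.c * cos (P.γ / 2) ≤
              (P.c + k 1 * (W' 1 - W 1)) * cos (P.γ / 2) +
                (P.c + k 2 * (W' 2 - W 2)) * cos (P.γ / 2) := by
            rw [← add_mul]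
            apply mul_le_mul_of_nonneg_right _ hcc.le
            linarith
          linarith
        · have := C.big h2'
          have := C.hl 1
          linarith
    · have hb1 := C.big h1
      have hs := C.sum_le h2
      rw [Finset.sum_range_succ, Finset.sum_range_one] at hs
      simp only [Nat.cast_zero, Nat.cast_one] at hs
      linarith

/-- **T-COMB**: the length of a closed chain of excursions is at least `2 c cos(γ/2)`. -/
theorem Chain.main (C : Chain P n k a a' W W' J l) :
    2 * (P.c * cos (P.γ / 2)) ≤ ∑ i ∈ range n, l i := by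
  by_cases hall : ∀ i, C.Cor i
  · exact C.all_corners hall
  · push Not at hall
    obtain ⟨i0, hi0⟩ := hall
    -- shift to index 0
    obtain ⟨m, hm⟩ : ∃ m : ℕ, ¬ C.Cor m := by
      refine ⟨(i0 % n).toNat, ?_⟩
      have hn : (0 : ℤ) < n := by exact_mod_cast C.n_pos
      have hnn : 0 ≤ i0 % (n : ℤ) := Int.emod_nonneg _ hn.ne'
      rw [Int.toNat_of_nonneg hnn]
      have hper : ∀ {α : Type} (f : ℤ → α), (∀ i, f (i + n) = f i) → ∀ (j i : ℤ),
          f (i + n * j) = f i := by
        intro α f hf j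
        induction j using Int.induction_on with
        | zero => intro i; simp
        | succ j ih =>
          intro i
          have : i + n * ((j : ℤ) + 1) = (i + n * j) + n := by ring
          rw [this, hf, ih]
        | pred j ih =>
          intro i
          have := hf (i + n * (-(j : ℤ) - 1))
          rw [← this, ← ih i]
          congr 1
          ring
      have e : i0 = i0 % n + n * (i0 / n) := (Int.emod_add_mul_ediv i0 n).symm
      intro hc
      apply hi0
      unfold Chain.Cor at hc ⊢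
      rw [e, hper k C.pk, hper a C.pa, hper a' C.pa', hper W C.pW, hper W' C.pW', hper l C.pl]
      exact hc
    have hsum := sum_shift l n C.pl m
    rw [← hsum]
    have C' := C.shift m
    have h0 : ¬ C'.Cor 0 := by
      unfold Chain.Cor at hm ⊢
      simp only [zero_add]
      exact hm
    exact C'.main0 h0

end chain

end Pool.MP8e.TComb
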